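import Mathlib
import Pool.Agent.H61B.Bip

/-!
# MP_88b079_co: Q1 for bipartite graphs

Every connected bipartite graph G with more than one vertex and tree(G) - 2 at most the vertex
connectivity has a Hamiltonian path.
-/

set_option autoImplicit false

namespace Pool.Agent.Results.MP_88b079_co.BipartiteGraphs

open SimpleGraph Pool.Agent.H37TR

/-- Every connected bipartite graph G with more than one vertex and tree(G) ≤ κ(G) + 2 has a
Hamiltonian path: a path whose vertices are all vertices of G. -/
theorem result {V : Type*} [Fintype V] (G : SimpleGraph V) (hG : G.Connected)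
    (hn : 1 < Fintype.card V) (h2 : G.Colorable 2)
    (h : treeNumber G ≤ vertexConnectivity G + 2) :
    ∃ (u v : V) (p : G.Walk u v), p.IsPath ∧ ∀ w, w ∈ p.support := by
  classical
  exact Pool.Agent.H61B.bip_main G hG hn h2 h

end Pool.Agent.Results.MP_88b079_co.BipartiteGraphs
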