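import Mathlib
import Pool.Agent.H37TR.Main
import Pool.Agent.H61B.HamMain
import Pool.Agent.H61C.Gre

/-!
# MP_88b079_co: Q1 for cocomparability graphs

Every connected cocomparability graph G (two vertices are adjacent exactly when they are
incomparable in some partial order) with more than one vertex and tree(G) - 2 at most the vertex
connectivity has a Hamiltonian path.
-/

set_option autoImplicit false

namespace Pool.Agent.Results.MP_88b079_co.Cocomparability

open SimpleGraph Pool.Agent.H37TR

/-- Every connected graph G with more than one vertex, whose edges are the incomparable pairs of a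
partial order on its vertices, and with tree(G) ≤ κ(G) + 2, has a Hamiltonian path: a path whose
vertices are all vertices of G. -/
theorem result {V : Type*} [Fintype V] (G : SimpleGraph V) (hG : G.Connected)
    (hn : 1 < Fintype.card V)
    (hco : ∃ P : PartialOrder V, ∀ x y, G.Adj x y ↔ ¬ P.le x y ∧ ¬ P.le y x)
    (h : treeNumber G ≤ vertexConnectivity G + 2) :
    ∃ (u v : V) (p : G.Walk u v), p.IsPath ∧ ∀ w, w ∈ p.support := by
  classical
  obtain ⟨P, hP⟩ := hco
  let _ := P
  have := hG.nonempty
  obtain ⟨lam, hl⟩ := Pool.Agent.H61C.exists_lab (V := V)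
  obtain ⟨p, hp⟩ := Pool.Agent.H61C.greedy_all (G := G)
    (fun x y hxy => by
      by_contra hcon
      push Not at hcon
      exact hxy ((hP x y).2 ⟨hcon.1, hcon.2⟩))
    (fun x y hxy ha => ((hP x y).1 ha).1 hxy.le)
    (fun S => components_le G hG hn h S) hl (Fintype.card V - 1) (by omega)
  have e : Fintype.card V - 1 + 1 = Fintype.card V := by omega
  rw [e] at hp
  exact Pool.Agent.H61B.walk_of_pa hp.pa

end Pool.Agent.Results.MP_88b079_co.Cocomparability
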