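import Mathlib
import Pool.Agent.H37TR.Main

/-!
# MP_88b079_co: the necessary condition of Q1 holds

If G is connected with more than one vertex and tree(G) - 2 is at most the vertex connectivity,
then deleting any vertex set S leaves at most |S| + 1 connected components (the standard
necessary condition for a Hamiltonian path).
-/

namespace Pool.Agent.Results.MP_88b079_co.ScatteringBound

open SimpleGraph Pool.Agent.H37TR

/-- For every connected graph G with more than one vertex and tree(G) ≤ κ(G) + 2 and every vertex
set S, the graph G - S has at most |S| + 1 connected components. -/
theorem result {V : Type*} [Fintype V] (G : SimpleGraph V) (hG : G.Connected)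
    (hn : 1 < Fintype.card V) (h : treeNumber G ≤ vertexConnectivity G + 2) (S : Finset V) :
    Nat.card (G.induce ((S : Set V)ᶜ)).ConnectedComponent ≤ S.card + 1 := by
  classical
  exact components_le G hG hn h S

end Pool.Agent.Results.MP_88b079_co.ScatteringBound
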